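import Pool.Agent.Lib.MP_7b7e48_nt.T3C.PD3
import Pool.Agent.Lib.MP_7b7e48_nt.T3D.C3
import Pool.Agent.Lib.MP_7b7e48_nt.T3D.Sok
import Pool.Agent.Lib.MP_7b7e48_nt.T3D.Fm3
import Pool.Agent.Lib.MP_7b7e48_nt.T3B.E3
import Pool.Agent.Lib.MP_7b7e48_nt.T3S.W2
import Pool.Agent.Lib.MP_7b7e48_nt.T3S.WP
import Pool.Agent.Lib.MP_7b7e48_nt.T3S.X3
import Pool.Agent.Lib.MP_7b7e48_nt.T3S.LB
import Pool.Agent.Lib.MP_7b7e48_nt.T3S.K

/-!
# Core3: the concrete mark system with composite windows satisfies all hypotheses of theorem TC3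
-/

set_option autoImplicit false

open Finset Filter

namespace Pool.Agent.Lib.TC

open Pool.Agent.Lib.TCB (famX famY BdS wD)
open Pool.Agent.Lib.RH (Prm MM JJ)

namespace MPar

private theorem core3_z (Q : MPar) (hQ : Q.Ok) : ∀ᶠ N : ℕ in atTop, ∀ z : ℕ, (z : ℝ) ≤ (N : ℝ) ^ (Q.e1 / 3) → z ≤ 2 * Q.V N 0 := by
  have he := hQ.e0
  filter_upwards [eventually_ge_atTop 1] with N hN z hz
  have hN1 : (1 : ℝ) ≤ N := by exact_mod_cast hN
  have hk : 0 < Q.k := by have := hQ.k3; omega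
  have h4 : Q.V N 0 = ⌊(N : ℝ) ^ (Q.e1 / 2)⌋₊ := by
    unfold V Z hf
    simp only [if_pos hk, pow_zero, one_mul]
  have h5 : z ≤ Q.V N 0 := by
    rw [h4]
    apply Nat.le_floor
    exact hz.trans (Real.rpow_le_rpow_of_exponent_le hN1 (by linarith))
  omega

private theorem core3_y (C : ℕ) : ∀ᶠ N : ℕ in atTop, 4 * (Real.log N) ^ C ≤ Real.exp ((kp N) ^ 80) := by
  have h1 : Tendsto (fun N : ℕ => kp N) atTop atTop :=
    (tendsto_rpow_atTop (by norm_num : (0 : ℝ) < 1 / 100)).comp (Real.tendsto_log_atTop.comp tendsto_natCast_atTop_atTop)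
  have h2 : ∀ᶠ x : ℝ in atTop, 4 * x ^ (100 * C) ≤ Real.exp x := by
    have h3 := (Real.isLittleO_pow_exp_atTop (n := 100 * C)).bound (show (0 : ℝ) < 1 / 4 by norm_num)
    filter_upwards [h3, eventually_ge_atTop 0] with x h4 hx
    rw [Real.norm_of_nonneg (by positivity), Real.norm_of_nonneg (Real.exp_pos _).le] at h4
    linarith
  filter_upwards [h1.eventually h2, h1.eventually_ge_atTop 1, eventually_ge_atTop 1] with N h3 h4 hN
  have hN1 : (1 : ℝ) ≤ N := by exact_mod_cast hN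
  have hK : (kp N) ^ 100 = Real.log N := by
    unfold kp
    rw [← Real.rpow_natCast, ← Real.rpow_mul (Real.log_nonneg hN1)]
    norm_num
  rw [← hK, ← pow_mul]
  refine h3.trans (Real.exp_le_exp.2 ?_)
  calc kp N = (kp N) ^ 1 := (pow_one _).symm
    _ ≤ (kp N) ^ 80 := pow_le_pow_right₀ h4 (by norm_num)

/-- **the concrete system** -/
theorem core3 : T3D.Core3 := by
  intro P hP e3 he3 he3b
  obtain ⟨B, hB⟩ : ∃ B : ℕ, B = 11011 + 10 * (P.C1 + 1) := ⟨_, rfl⟩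
  obtain ⟨k0, hk0⟩ := ev_PD3 hP B
  obtain ⟨k, hk⟩ : ∃ k : ℕ, k = 2 * (k0 + 4 * (B + 16) + 5) + 1 := ⟨_, rfl⟩
  have hkodd : Odd k := ⟨k0 + 4 * (B + 16) + 5, hk⟩
  have hk5 : 5 ≤ k := by omega
  obtain ⟨p0, hp0⟩ : ∃ p0 : ℕ, p0 = 64 * (k + 1) ^ 2 + 64 := ⟨_, rfl⟩
  obtain ⟨Cf', hCf'⟩ : ∃ C : ℕ, C = (mk0 k 1 p0 1).Cf3 := ⟨_, rfl⟩
  obtain ⟨CD, hCD⟩ : ∃ C : ℕ, C = Cf' + 4 * (k + 1) + 4 * P.C1 + 7013 := ⟨_, rfl⟩
  obtain ⟨Cp, hCp⟩ : ∃ C : ℕ, C = CD + 24 * (k + 1) + B + 41 + 8 * P.C1 + 11022 := ⟨_, rfl⟩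
  have hκ0 := hP.kap0
  have hκ1 := hP.kap1
  have hk1 : (0 : ℝ) < (k : ℝ) + 1 := by positivity
  have hCp0 : (1 : ℝ) ≤ Cp := by
    have : 1 ≤ Cp := by omega
    exact_mod_cast this
  obtain ⟨δ1, hδ1⟩ : ∃ δ : ℝ, δ = min (1 / (600 * (Cp : ℝ))) (P.kap / 16) := ⟨_, rfl⟩
  have hδ1p : 0 < δ1 := by rw [hδ1]; exact lt_min (by positivity) (by positivity)
  have hδ1a : δ1 ≤ 1 / (600 * (Cp : ℝ)) := by rw [hδ1]; exact min_le_left _ _
  have hδ1b : δ1 ≤ P.kap / 16 := by rw [hδ1]; exact min_le_right _ _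
  obtain ⟨δm, hδm⟩ : ∃ δ : ℝ, δ = min (P.kap / 32) (e3 / 16) := ⟨_, rfl⟩
  have hδmp : 0 < δm := by rw [hδm]; exact lt_min (by positivity) (by positivity)
  have hδma : δm ≤ P.kap / 32 := by rw [hδm]; exact min_le_left _ _
  have hδmb : δm ≤ e3 / 16 := by rw [hδm]; exact min_le_right _ _
  have hW0 : 0 < Wp p0 := Wp_pos p0
  have hWr : (1 : ℝ) ≤ Wp p0 := by exact_mod_cast hW0
  obtain ⟨A, B', δz', hδz', N1, hpl⟩ := T3.pair_lem3 k B CD Cp Cf' (Wp p0) (2 * (Wp p0 : ℝ) ^ 2) (1 / 400) δ1 1 (by omega)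
    (by omega) (by nlinarith) (by norm_num) hδ1p (by linarith)
  obtain ⟨e1, he1⟩ : ∃ e : ℝ, e = min (min (1 / (80 * ((k : ℝ) + 1))) (P.kap / (400 * ((k : ℝ) + 1))))
    (min (δ1 / (256 * ((k : ℝ) + 1))) (min (δm / (8 * ((k : ℝ) + 1))) (e3 / (30 * ((k : ℝ) + 1))))) := ⟨_, rfl⟩
  have he1p : 0 < e1 := by
    rw [he1]
    exact lt_min (lt_min (by positivity) (by positivity)) (lt_min (by positivity) (lt_min (by positivity) (by positivity)))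
  have hea : e1 ≤ 1 / (80 * ((k : ℝ) + 1)) := by rw [he1]; exact (min_le_left _ _).trans (min_le_left _ _)
  have heb : e1 ≤ P.kap / (400 * ((k : ℝ) + 1)) := by rw [he1]; exact (min_le_left _ _).trans (min_le_right _ _)
  have hec : e1 ≤ δ1 / (256 * ((k : ℝ) + 1)) := by rw [he1]; exact (min_le_right _ _).trans (min_le_left _ _)
  have hed : e1 ≤ δm / (8 * ((k : ℝ) + 1)) := by
    rw [he1]; exact (min_le_right _ _).trans ((min_le_right _ _).trans (min_le_left _ _))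
  have hee : e1 ≤ e3 / (30 * ((k : ℝ) + 1)) := by
    rw [he1]; exact (min_le_right _ _).trans ((min_le_right _ _).trans (min_le_right _ _))
  clear he1
  rw [le_div_iff₀ (by positivity)] at hea heb hec hed hee
  obtain ⟨Q, hQd⟩ : ∃ Q : MPar, Q = mk0 k Cp p0 e1 := ⟨_, rfl⟩
  have hQ : Q.Ok := by
    rw [hQd]
    exact mk0_ok p0 hkodd (by omega) (by omega) he1p (by linarith)
  have hQk : Q.k = k := by rw [hQd]; rfl
  have hQW : Q.W = Wp p0 := by rw [hQd]; rfl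
  have hQC : Q.Cp = Cp := by rw [hQd]; rfl
  have hQe : Q.e1 = e1 := by rw [hQd]; rfl
  have hQf : Q.Cf3 = Cf' := by rw [hQd, hCf']; rfl
  clear hQd hCf'
  have hWpr : ∀ p : ℕ, p.Prime → (p ∣ Q.W ↔ p < p0) := by
    intro p hp
    rw [hQW]
    exact Wp_pr p0 hp
  have hWsq : Squarefree Q.W := by rw [hQW]; exact Wp_sq p0
  refine ⟨Q.W, Cp, 1 / 400, δ1, δm, 1, min δz' (min (1 / 400) (e1 / 3)), hQ.W0, lt_min hδz' (lt_min (by norm_num) (by positivity)),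
    ⟨by omega, by norm_num, hδ1p, hδmp.le, one_pos, by linarith, hδ1a, hδ1b, hδma, he3, by linarith⟩, ?_⟩
  have hPD := hk0 Q p0 hQ (by omega) (by omega) (by omega) hWpr hWsq (by rw [hQk]; omega) A B' δ1 δz' hδ1p.le (by rw [hQk, hQe]; linarith)
  have hfr := ev_frame3 hP hQ (by omega) (by rw [hQk, hQe]; linarith)
  obtain ⟨N2, hbs⟩ := T3B.bs_thm3 P hP Q.W hQ.W0
  have hexb := ev_exb hQ (ε := 2 * e3) (by linarith) (by rw [hQk, hQe]; linarith)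
  have hev : ∀ᶠ N : ℕ in atTop, Even N → ∀ z : ℕ, Real.exp (Real.log N / (Real.log (Real.log N)) ^ 2) ≤ z →
      (z : ℝ) ≤ (N : ℝ) ^ (min δz' (min (1 / 400) (e1 / 3))) →
    ∃ (S : MS) (T : Dat) (y1 : ℕ) (D : TCF.Dat) (ε : ℝ), T3D.Out P Q.W N z Cp (1 / 400) δ1 δm 1 e3 S T y1 D ε := by
    filter_upwards [ev_Lg3 hQ, hPD, hfr, ev_y13 hP hQ (by omega), ev_MM hP hQ p0, ev_D3 hP hQ (by omega), ev_winok3 hQ, core3_z Q hQ,
      eventually_ge_atTop N1, eventually_ge_atTop N2, eventually_ge_atTop 1, Pool.Agent.Lib.RH.ev_log_ge 16, hexb, core3_y Cp, PD3_exp,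
      ev_dat hP hQ p0 (by omega) hWpr hWsq, Pool.Agent.Lib.RH.ev_log_ge ((Q.W : ℝ) ^ 2)]
      with N h g2 g3 g4 g5 g6 g7 g8 g9 g10 g11 g12 g13 g14 g15 g16 g17 hNe z hz1 hz2
    obtain ⟨f1, f2, f3⟩ := g3 h
    obtain ⟨y1a, y1b, y1c, y1d, y1e⟩ := g4 h
    obtain ⟨m1, m2, m3, m4⟩ := g5
    have hJ1 := g6 h.lg
    obtain ⟨u1, u2, u3⟩ := y0_bd hQ h.lg
    have hK0 : 0 < Real.log N := by linarith
    have hK1 : 1 ≤ Real.log N := by linarith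
    have hMy : MM P (Q.W ^ 2 * N) ≤ Q.y0 N := by
      have h1 : (MM P (Q.W ^ 2 * N) : ℝ) ≤ Q.y0 N :=
        m1.trans ((pow_le_pow_right₀ hK1 (by omega)).trans u2)
      exact_mod_cast h1
    have hN1 : (1 : ℝ) ≤ N := by exact_mod_cast g11
    have hza : (z : ℝ) ≤ (N : ℝ) ^ δz' := hz2.trans (Real.rpow_le_rpow_of_exponent_le hN1 (min_le_left _ _))
    have hzb : (z : ℝ) ≤ (N : ℝ) ^ ((1 : ℝ) / 400) :=
      hz2.trans (Real.rpow_le_rpow_of_exponent_le hN1 ((min_le_right _ _).trans (min_le_left _ _)))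
    have hzc : (z : ℝ) ≤ (N : ℝ) ^ (Q.e1 / 3) := by
      rw [hQe]
      exact hz2.trans (Real.rpow_le_rpow_of_exponent_le hN1 ((min_le_right _ _).trans (min_le_right _ _)))
    have hz0 := g8 z hzc
    have hzk : Real.exp ((kp N) ^ 80) ≤ z := g15.trans hz1
    have hWy : ∀ p : ℕ, p.Prime → p ∣ Q.W → p ≤ Q.y0 N := fun p hp hd => ((hWpr p hp).1 hd).le.trans (m2.trans hMy)
    have hW2D : Q.W ^ 2 * 1 ≤ Q.y0 N := by
      have h1 : ((Q.W ^ 2 * 1 : ℕ) : ℝ) ≤ Q.y0 N := by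
        push_cast
        rw [mul_one]
        calc (Q.W : ℝ) ^ 2 ≤ Real.log N := g17
          _ = (Real.log N) ^ 1 := (pow_one _).symm
          _ ≤ (Real.log N) ^ (Q.Cp - 1) := pow_le_pow_right₀ hK1 (by omega)
          _ ≤ Q.y0 N := u2
      exact_mod_cast h1
    have hso := sets_ok3 hQ h (Q.W ^ 2) (fun p hp hy hd => absurd (hWy p hp (hp.dvd_of_dvd_pow hd)) (by omega))
    have hok3 := ms_ok3 hQ hWsq h (dat P Q p0 N z (Q.W ^ 2 * 1)) rfl rfl hzk hz0 (by rw [hQk]; show _ ≤ p0; omega)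
    have hdok := g16 h.lg hNe z (Q.W ^ 2 * 1) hzk (by have := hQ.W0; positivity) (Dvd.intro _ rfl) hW2D
    have hsets : T3D.Sets3 (Q.sys3 N) (Q.W ^ 2 * N) (Q.y0 N) z := T3D.sets3_of_ok hdok hok3
    refine ⟨Q.sys3 N, dat P Q p0 N z 1, ⌈Real.log N⌉₊, fdat3 P Q N, 1 / (Real.log N) ^ B, rfl, rfl, rfl, ⟨f1, ?_, f3⟩, ?_, fun s u hs hu hex => ?_⟩
    · rw [← mul_assoc]
      exact f2
    · exact hbs (Q.sys3 N) (Q.WA N) (Q.WB N) (dat P Q p0 N z 1) ⌈Real.log N⌉₊ (J03 Q N) (J13 P Q N) (J23 P Q N) g10 f1.ok (cmp3 Q N)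
        (g7 (dat P Q p0 N z 1) rfl (fun p hp hd => (hWpr p hp).1 hd) _ y1b) y1c y1d (by show 5 ≤ Q.k; omega)
        (by show 64 * (Q.k + 1) ^ 2 + 64 ≤ p0; rw [hQk, hp0]) y1e
    · refine ⟨f1.ok, rfl, T3D.fam3_of_cmp (cmp3 Q N) hso, hsets, hWsq, hWy, le_rfl, ?_, ?_, hzb, fun μ hμ ν hν => ?_,
        hok3.num, ?_, by positivity, ?_, fun D' hD0 hDJ => ?_, par_sys3 hQ h _ rfl, hs, hu, fun D' hD0 hDJ => ?_⟩
      · rw [← hQC]
        exact u1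
      · have h1 : ((4 * Q.y0 N : ℕ) : ℝ) ≤ z := by
          push_cast
          have h2 : (4 : ℝ) * Q.y0 N ≤ 4 * (Real.log N) ^ Cp := by
            rw [← hQC]
            linarith
          exact h2.trans (g14.trans hzk)
        exact_mod_cast h1
      · refine (size_xy3 hQ h hμ hν).trans (Real.rpow_le_rpow_of_exponent_le hN1 ?_)
        rw [hQk, hQe]
        linarith
      · exact m4
      · show 1 / (Real.log N) ^ B * ((JJ (Q.W ^ 2 * N) : ℝ) ^ 11 * (MM P (Q.W ^ 2 * N) : ℝ) ^ 10) ≤ 1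
        rw [one_div, inv_mul_le_iff₀ (by positivity), mul_one, hB]
        calc (JJ (Q.W ^ 2 * N) : ℝ) ^ 11 * (MM P (Q.W ^ 2 * N) : ℝ) ^ 10 ≤ ((Real.log N) ^ 1001) ^ 11 * ((Real.log N) ^ (P.C1 + 1)) ^ 10 := by gcongr
          _ = (Real.log N) ^ (11011 + 10 * (P.C1 + 1)) := by
            rw [← pow_mul, ← pow_mul, ← pow_add]
            congr 1
            ring
      · obtain ⟨p1, hpd⟩ := g2 h hNe z (Q.W ^ 2 * D') hz1 hza hz0 (by have := hQ.W0; positivity) (Dvd.intro _ rfl) (Nat.mul_le_mul_left _ hDJ)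
        rw [hQk, hQC, hQf, hQW, ← hCD] at hpd
        rw [hQW]
        exact hpl (Q.sys3 N) (dat P Q p0 N z (Wp p0 ^ 2 * D')) (Wp p0) _ p1 _ _ _ hpd g9
      · have h1 := g13 h (wD (dat P Q p0 N z 1) (Q.W ^ 2 * D')) rfl (by have := hQ.W0; show 0 < Q.W ^ 2 * D'; positivity) s u
          (2 * (fdat3 P Q N).J1 * (Q.W ^ 2 * N)) hex
        have h2 : 2 * e3 / 2 = e3 := by ring
        rw [h2] at h1
        exact h1
  obtain ⟨N0, hN0⟩ := eventually_atTop.1 hev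
  exact ⟨N0, fun N hN => hN0 N hN⟩

end MPar

end Pool.Agent.Lib.TC
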